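import Pool.Agent.H101.BF.Fin

/-!
# Balls avoiding the `k`-skeleton of a simplex: the bound depending on the centre, and equality

Let `p_0, …, p_d` be points of a Euclidean space, `x = ∑ l_i p_i` a convex combination of them and
`0 ≤ k < d`. If an open ball with the centre `x` and the radius `ρ` does not meet the convex hull of
any `k + 1` of the points, then `ρ² ≤ (d-k)/(d(k+1)) ∑ l_i |p_i - x|²`. For `k ≥ 1` equality holds
only for a regular simplex and its centre. In the unit ball the right side is at most
`(d-k)/(d(k+1)) (1 - |x|²)`, and for `k ≥ 1` the radius `√((d-k)/(d(k+1)))` of Q1 is attained exactly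
by the regular simplices inscribed in the unit sphere, at the origin.

The inequality is proved in the library by descent from faces to their facets. Equality: in the
last step of the descent (from the simplex to its facets) a concave quadratic function
`R - |y - y_0|²` is at most `0` on the boundary; in the equality case the weights of `x` and of the
maximum point satisfy `l_i - g_i = ± s g_i`. If `s > 0` and a sign occurs twice, then the ball around
`y_0` would touch two facets at a common point, which the first-order conditions exclude; as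
`d + 1 ≥ 3`, `s = 0`. Then `x` is the centre of the ball, and it touches every facet at its
barycentre, so `p_i - x` is orthogonal to the opposite facet.
-/

set_option autoImplicit false

namespace Pool.Agent.Results.MP_b0e7a9_co.RegularSimplexOnly

open Finset Pool.Agent.H101.BF

/-- **Balls avoiding the `k`-skeleton.** (1) The bound by the variance and its equality case.
(2) The bound in the unit ball, depending on the centre, and the extremal configurations of Q1 for
`k ≥ 1`: regular simplices inscribed in the unit sphere, with `x` the origin. -/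
theorem result (E : Type) [NormedAddCommGroup E] [InnerProductSpace ℝ E] (d k : ℕ) (hk : k < d)
    (p : Fin (d + 1) → E) :
    (∀ l : Fin (d + 1) → ℝ, (∀ i, 0 ≤ l i) → ∑ i, l i = 1 → ∀ ρ : ℝ, 0 < ρ →
      Disjoint (Metric.ball (∑ i, l i • p i) ρ) (skel p k) →
      ρ ^ 2 ≤ ((d : ℝ) - k) / (d * (k + 1)) * ∑ i, l i * ‖p i - ∑ j, l j • p j‖ ^ 2 ∧
      (1 ≤ k →
        ρ ^ 2 = ((d : ℝ) - k) / (d * (k + 1)) * ∑ i, l i * ‖p i - ∑ j, l j • p j‖ ^ 2 →
        (∀ i, l i = 1 / ((d : ℝ) + 1)) ∧ ∃ V : ℝ, 0 < V ∧ ∀ i j,
          inner ℝ (p i - ∑ m, l m • p m) (p j - ∑ m, l m • p m) =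
            if i = j then V else -(V / d))) ∧
    ((∀ i, ‖p i‖ ≤ 1) → ∀ x ∈ convexHull ℝ (Set.range p),
      (∀ ρ : ℝ, 0 < ρ → Disjoint (Metric.ball x ρ) (skel p k) →
        ρ ^ 2 ≤ ((d : ℝ) - k) / (d * (k + 1)) * (1 - ‖x‖ ^ 2)) ∧
      (1 ≤ k →
        (Disjoint (Metric.ball x (Real.sqrt (((d : ℝ) - k) / (d * (k + 1))))) (skel p k) ↔
          x = 0 ∧ ∀ i j, inner ℝ (p i) (p j) = if i = j then (1 : ℝ) else -1 / d))) := by
  have hd0 : (0 : ℝ) < d := by
    have : 0 < d := by omega
    exact_mod_cast this
  have hkd : (k : ℝ) < d := by exact_mod_cast hk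
  have hC : 0 < ((d : ℝ) - k) / (d * (k + 1)) := div_pos (by linarith) (by positivity)
  refine ⟨?_, ?_⟩
  · intro l hl0 hl1 ρ hρ hdis
    have hl : l ∈ Spx (univ : Finset (Fin (d + 1))) := mem_univ_Spx hl0 hl1
    have hV := VV_eq p l hl1
    have hLL : LL p l = ∑ i, l i • p i := rfl
    rw [← hLL] at hdis ⊢
    rw [← hV]
    refine ⟨bound hk p l hl ρ hρ hdis, fun hk1 heq => ?_⟩
    obtain ⟨h1, h2, h3⟩ := bound_eq hk1 hk p l hl ρ hρ hdis heq
    refine ⟨h1, VV p l, ?_, fun i j => ?_⟩
    · by_contra hcon
      push Not at hcon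
      have h4 := mul_nonpos_of_nonneg_of_nonpos hC.le hcon
      have h5 : 0 < ρ ^ 2 := by positivity
      linarith
    · split_ifs with hij
      · rw [hij, real_inner_self_eq_norm_sq]; exact h2 j
      · exact h3 i j hij
  · intro hb x hx
    obtain ⟨l, hl, hlx⟩ : ∃ l ∈ Spx (univ : Finset (Fin (d + 1))), LL p l = x := by
      rw [convexHull_range_eq_exists_affineCombination] at hx
      obtain ⟨s, w, hw0, hw1, hx⟩ := hx
      rw [Finset.affineCombination_eq_linear_combination s p w hw1] at hx
      classical
      refine ⟨fun i => if i ∈ s then w i else 0, mem_univ_Spx (fun i => ?_) ?_, ?_⟩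
      · split_ifs with h
        · exact hw0 i h
        · exact le_rfl
      · rw [Finset.sum_ite_mem]; simpa using hw1
      · rw [← hx]; simp only [LL, ite_smul, zero_smul]; rw [Finset.sum_ite_mem]; simp
    have hV : VV p l ≤ 1 - ‖x‖ ^ 2 := by
      unfold VV
      rw [hlx]
      have : ∑ i, l i * ‖p i‖ ^ 2 ≤ ∑ i, l i := Finset.sum_le_sum fun i _ => by
        have h1 : ‖p i‖ ^ 2 ≤ 1 := by
          have := pow_le_pow_left₀ (norm_nonneg _) (hb i) 2
          simpa using this
        have := mul_le_mul_of_nonneg_left h1 (hl.1 i)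
        linarith
      rw [hl.2.2] at this
      linarith
    refine ⟨fun ρ hρ hdis => ?_, fun hk1 => ⟨fun hdis => ?_, fun h => ?_⟩⟩
    · have h1 := bound hk p l hl ρ hρ (by rw [hlx]; exact hdis)
      have h2 := mul_le_mul_of_nonneg_left hV hC.le
      linarith
    · have hρ : 0 < Real.sqrt (((d : ℝ) - k) / (d * (k + 1))) := Real.sqrt_pos.2 hC
      have hsq := Real.sq_sqrt hC.le
      have hdis' : Disjoint (Metric.ball (LL p l) (Real.sqrt (((d : ℝ) - k) / (d * (k + 1)))))
          (skel p k) := by rw [hlx]; exact hdis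
      have h1 := bound hk p l hl _ hρ hdis'
      rw [hsq] at h1
      have h2 : 1 ≤ VV p l := by
        have h3 : ((d : ℝ) - k) / (d * (k + 1)) * 1 ≤ ((d : ℝ) - k) / (d * (k + 1)) * VV p l := by
          linarith
        exact le_of_mul_le_mul_left h3 hC
      have h4 : ‖x‖ ^ 2 = 0 := le_antisymm (by linarith) (sq_nonneg _)
      have hx0 : x = 0 := by
        have := pow_eq_zero_iff (two_ne_zero) |>.1 h4
        exact norm_eq_zero.1 this
      have h5 : VV p l = 1 := le_antisymm (by rw [h4] at hV; linarith) h2
      obtain ⟨-, h6, h7⟩ := bound_eq hk1 hk p l hl _ hρ hdis' (by rw [hsq, h5, mul_one])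
      rw [hlx, hx0, h5] at h6 h7
      simp only [sub_zero] at h6 h7
      refine ⟨hx0, fun i j => ?_⟩
      split_ifs with hij
      · rw [hij, real_inner_self_eq_norm_sq]; exact h6 j
      · rw [h7 i j hij]; ring
    · rw [h.1]
      exact regular_disjoint hk p h.2

end Pool.Agent.Results.MP_b0e7a9_co.RegularSimplexOnly
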